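import Pool.Agent.Helper20.HD.Defs

/-!
# Deletion of parallel handles: dense sets
-/

set_option autoImplicit false

namespace Pool.Agent.Helper95.HD

open SimpleGraph Pool.Agent.Helper57.TOK Pool.Agent.Helper57.TD Pool.Agent.Helper57.TOP
  Pool.Agent.Helper82.TK Pool.Agent.Helper20.HD

variable {V : Type*} {G : SimpleGraph V} {U : Set V} {p : V}

lemma hand_unique {d p x y : V} (h1 : Hand G d p x) (h2 : Hand G d p y) : x = y := by
  have h3 : G.Adj d x := h1.hq
  rcases h2.adj.1 h3 with h4 | h4
  · exact absurd h4.symm h1.ne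
  · exact h4

/-- A set with the neighbours `p`, `n` which is balanced off `p` does not exist. -/
lemma DupOK.noZ [Finite V] {D : Set V} (hD : DupOK G U p D) {Z : Set V} {κ : V → ZMod 2}
    (hZ : Z ⊆ U \ D) (h2 : 2 ≤ Z.ncard) (hN : (Nb (delS G D) Z).ncard ≤ 2)
    (hp : p ∈ Nb (delS G D) Z)
    (hb : ∀ u v, u ∈ Z → v ≠ p → (delS G D).Adj u v → κ u ≠ κ v) : False := by
  classical
  set H := delS G D with hH
  have hr := hD.pre.conn Z hZ h2 hN
  set R := (U \ D) \ (Z ∪ Nb H Z) with hR
  -- the second neighbour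
  have h1 : (Nb H Z \ {p}).ncard ≤ 1 := by
    rw [Set.ncard_sdiff_singleton_of_mem hp]
    omega
  have hone : ∀ a ∈ Nb H Z, ∀ b ∈ Nb H Z, a ≠ p → b ≠ p → a = b := by
    intro a ha b hb' hap hbp
    exact (Set.ncard_le_one (Set.toFinite _)).1 h1 a ⟨ha, hap⟩ b ⟨hb', hbp⟩
  have hRone : ∀ a ∈ R, ∀ b ∈ R, a = b := (Set.ncard_le_one (Set.toFinite _)).1 hr
  have hmem : ∀ u v, H.Adj u v → u ∈ U \ D := fun u v huv => hD.pre.edge_mem u v huv
  have one : ∀ x : ZMod 2, x ≠ x + 1 := by decide
  by_cases hn : ∃ n, n ∈ Nb H Z ∧ n ≠ p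
  · obtain ⟨n, hn, hnp⟩ := hn
    refine hD.preD.idxp (fun v => if v ∈ R then κ n + 1 else κ v) ?_
    intro u v hu _ hv _ huv
    have hnR : n ∉ R := fun h3 => h3.2 (Or.inr hn)
    have hZR : ∀ z ∈ Z, z ∉ R := fun z hz h3 => h3.2 (Or.inl hz)
    have key : ∀ u v, u ≠ p → v ≠ p → H.Adj u v → u ∈ Z →
        (if u ∈ R then κ n + 1 else κ u) ≠ (if v ∈ R then κ n + 1 else κ v) := by
      intro u v hu hv huv huZ
      have hvR : v ∉ R := by
        intro h3
        exact h3.2 (Or.inr ⟨fun h4 => h3.2 (Or.inl h4), u, huZ, huv⟩)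
      rw [if_neg (hZR u huZ), if_neg hvR]
      exact hb u v huZ hv huv
    by_cases huZ : u ∈ Z
    · exact key u v hu hv huv huZ
    by_cases hvZ : v ∈ Z
    · exact (key v u hv hu huv.symm hvZ).symm
    have cls : ∀ w, w ∈ U \ D → w ∉ Z → w ≠ p → w = n ∨ w ∈ R := by
      intro w hw hwZ hwp
      by_cases h3 : w ∈ Nb H Z
      · exact Or.inl (hone w h3 n hn hwp hnp)
      · right
        exact ⟨hw, by rintro (h4 | h4); exacts [hwZ h4, h3 h4]⟩
    show (if u ∈ R then κ n + 1 else κ u) ≠ (if v ∈ R then κ n + 1 else κ v)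
    rcases cls u (hmem u v huv) huZ hu with h3 | h3
    · rcases cls v (hmem v u huv.symm) hvZ hv with h4 | h4
      · exact absurd (h3.trans h4.symm) huv.ne
      · rw [h3, if_neg hnR, if_pos h4]
        exact one _
    · rcases cls v (hmem v u huv.symm) hvZ hv with h4 | h4
      · rw [h4, if_neg hnR, if_pos h3]
        exact (one _).symm
      · exact absurd (hRone u h3 v h4) huv.ne
  · push Not at hn
    refine hD.preD.idxp κ ?_
    intro u v hu _ hv _ huv
    have cls : ∀ w, w ∈ U \ D → w ∉ Z → w ≠ p → w ∈ R := by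
      intro w hw hwZ hwp
      exact ⟨hw, by rintro (h4 | h4); exacts [hwZ h4, hwp (hn w h4)]⟩
    have nocross : ∀ u v, u ≠ p → v ≠ p → H.Adj u v → u ∈ Z → v ∈ Z := by
      intro u v hu hv huv huZ
      by_contra hvZ
      exact hv (hn v ⟨hvZ, u, huZ, huv⟩)
    by_cases huZ : u ∈ Z
    · exact hb u v huZ hv huv
    by_cases hvZ : v ∈ Z
    · exact (hb v u hvZ hu huv.symm).symm
    · exact absurd (hRone u (cls u (hmem u v huv) huZ hu) v (cls v (hmem v u huv.symm) hvZ hv))
        huv.ne

/-- There are no three parallel handles. -/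
lemma PreD.no_three [Finite V] (hp : PreD G U p) {d1 d2 d3 x : V} (h1 : Hand G d1 p x)
    (h2 : Hand G d2 p x) (h3 : Hand G d3 p x) (h12 : d1 ≠ d2) (h13 : d1 ≠ d3) (h23 : d2 ≠ d3) :
    False := by
  classical
  set T : Set V := {d1, d2, d3} with hT
  have hc : T.ncard = 3 := Set.ncard_eq_three.2 ⟨d1, d2, d3, h12, h13, h23, rfl⟩
  have hTU : T ⊆ U := by
    rintro v (rfl | rfl | hv)
    · exact hp.edge_mem _ _ h1.hp
    · exact hp.edge_mem _ _ h2.hp
    · rw [Set.mem_singleton_iff.1 hv]; exact hp.edge_mem _ _ h3.hp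
  have hTadj : ∀ v ∈ T, ∀ w, G.Adj v w → w = p ∨ w = x := by
    rintro v (rfl | rfl | hv) w hw
    · exact h1.adj.1 hw
    · exact h2.adj.1 hw
    · rw [Set.mem_singleton_iff.1 hv] at hw; exact h3.adj.1 hw
  have hN : Nb G T ⊆ {p, x} := by
    rintro v ⟨-, u, hu, huv⟩
    exact hTadj u hu v huv
  have hN2 : (Nb G T).ncard ≤ 2 :=
    (Set.ncard_le_ncard hN (Set.toFinite _)).trans (by
      exact (Set.ncard_insert_le p {x}).trans (by rw [Set.ncard_singleton]))
  have hxT : x ∉ T := by
    intro hx
    rcases hTadj x hx x with h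
    have hxx : ∀ d, Hand G d p x → d ≠ x := fun d hd => hd.hq.ne
    rcases hx with hx | hx | hx
    · exact hxx d1 h1 hx.symm
    · exact hxx d2 h2 hx.symm
    · exact hxx d3 h3 (Set.mem_singleton_iff.1 hx).symm
  have hpT : p ∉ T := by
    intro hx
    have hxx : ∀ d, Hand G d p x → d ≠ p := fun d hd => hd.hp.ne
    rcases hx with hx | hx | hx
    · exact hxx d1 h1 hx.symm
    · exact hxx d2 h2 hx.symm
    · exact hxx d3 h3 (Set.mem_singleton_iff.1 hx).symm
  have hpN : p ∈ Nb G T := ⟨hpT, d1, Or.inl rfl, h1.hp⟩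
  have hxN : x ∈ Nb G T := ⟨hxT, d1, Or.inl rfl, h1.hq⟩
  -- the rest has no inner edge which avoids `p`
  have hrest : ∀ u ∈ U \ (T ∪ Nb G T), ∀ v ∈ U \ (T ∪ Nb G T), ¬ G.Adj u v := by
    intro u hu v hv huv
    by_cases hr : 2 ≤ (U \ (T ∪ Nb G T)).ncard
    · obtain ⟨a, b, y, hab, ha, hb, h4 | h4⟩ := hp.conn T hTU (by omega) hN2 hr
      · rw [h4, Set.ncard_pair hab] at hc
        omega
      · rw [h4] at hu hv
        have hy : ∀ w ∈ ({a, b} : Set V), w ≠ p := by
          rintro w (rfl | hw)
          · exact ha.hp.ne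
          · rw [Set.mem_singleton_iff.1 hw]; exact hb.hp.ne
        have hself : y ≠ a ∧ y ≠ b := ⟨ha.hq.ne.symm, hb.hq.ne.symm⟩
        rcases hu with hu | hu
        · rw [hu] at huv
          rcases ha.adj.1 huv with h5 | h5
          · exact hy v hv h5
          · rcases hv with hv | hv
            · exact hself.1 (h5.symm.trans hv)
            · exact hself.2 (h5.symm.trans hv)
        · rw [Set.mem_singleton_iff.1 hu] at huv
          rcases hb.adj.1 huv with h5 | h5
          · exact hy v hv h5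
          · rcases hv with hv | hv
            · exact hself.1 (h5.symm.trans hv)
            · exact hself.2 (h5.symm.trans hv)
    · exact huv.ne ((Set.ncard_le_one (Set.toFinite _)).1 (by omega) u hu v hv)
  refine hp.idxp (fun v => if v = x then 0 else 1) ?_
  intro u v hu _ hv _ huv
  have cls : ∀ w, w ∈ U → w ≠ p → w ≠ x → w ∈ T ∨ w ∈ U \ (T ∪ Nb G T) := by
    intro w hw hwp hwx
    by_cases h4 : w ∈ T
    · exact Or.inl h4
    · right
      refine ⟨hw, ?_⟩
      rintro (h5 | h5)
      · exact h4 h5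
      · rcases hN h5 with h6 | h6
        · exact hwp h6
        · exact hwx h6
  show (if u = x then (0 : ZMod 2) else 1) ≠ (if v = x then (0 : ZMod 2) else 1)
  by_cases hux : u = x
  · have hvx : v ≠ x := fun h4 => huv.ne (hux.trans h4.symm)
    rw [if_pos hux, if_neg hvx]
    exact zero_ne_one
  · by_cases hvx : v = x
    · rw [if_neg hux, if_pos hvx]
      exact one_ne_zero
    · exfalso
      rcases cls u (hp.edge_mem u v huv) hu hux with h4 | h4
      · rcases hTadj u h4 v huv with h5 | h5
        · exact hv h5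
        · exact hvx h5
      · rcases cls v (hp.edge_mem v u huv.symm) hv hvx with h5 | h5
        · rcases hTadj v h5 u huv.symm with h6 | h6
          · exact hu h6
          · exact hux h6
        · exact hrest u h4 v h5 huv

section dy

variable {D Y' : Set V} {κ' : V → ZMod 2}

lemma nb_split (_hD : DupOK G U p D) (hY : Y' ⊆ U \ D) : Nb G Y' = Nb (delS G D) Y' ∪
    (D ∩ Nb G Y') := by
  ext v
  constructor
  · intro hv
    by_cases hvD : v ∈ D
    · exact Or.inr ⟨hvD, hv⟩
    · left
      obtain ⟨hv1, u, hu, huv⟩ := hv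
      exact ⟨hv1, u, hu, huv, (hY hu).2, hvD⟩
  · rintro (⟨hv1, u, hu, huv⟩ | ⟨-, hv⟩)
    · exact ⟨hv1, u, hu, huv.1⟩
    · exact hv

lemma nb1_notD {v : V} (hv : v ∈ Nb (delS G D) Y') : v ∉ D := by
  obtain ⟨-, u, -, huv⟩ := hv
  exact huv.2.2

/-- The end in `Y'` of a deleted handle. -/
lemma dy_x (hD : DupOK G U p D) (hpY : p ∉ Y') {d : V} (hd : d ∈ D ∩ Nb G Y') :
    ∃ x ∈ Y', Hand G d p x := by
  obtain ⟨d', x, -, -, -, -, -, h1, -⟩ := hD.twin d hd.1
  obtain ⟨-, u, hu, hud⟩ := hd.2
  rcases h1.adj.1 hud.symm with h2 | h2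
  · exact absurd (h2 ▸ hu) hpY
  · rw [h2] at hu; exact ⟨x, hu, h1⟩

lemma rho_split [Finite V] (hD : DupOK G U p D) (hY : Y' ⊆ U \ D) (hpY : p ∉ Y') :
    fden G Y' = fden (delS G D) Y' + ((D ∩ Nb G Y').ncard : ℤ) := by
  classical
  have hx : ∀ d ∈ D ∩ Nb G Y', ∃ x ∈ Y', Hand G d p x := fun d hd => dy_x hD hpY hd
  choose! xf hxf1 hxf2 using hx
  have hinj : Set.InjOn (fun d => s(d, xf d)) (D ∩ Nb G Y') := by
    intro d hd e he hde
    have hde' : s(d, xf d) = s(e, xf e) := hde
    rw [Sym2.eq_iff] at hde'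
    rcases hde' with ⟨h1, -⟩ | ⟨h1, -⟩
    · exact h1
    · exact absurd hd.1 (h1 ▸ (hY (hxf1 e he)).2)
  have hE : EAt G Y' = EAt (delS G D) Y' ∪ (fun d => s(d, xf d)) '' (D ∩ Nb G Y') := by
    ext e
    induction e using Sym2.ind with
    | _ u v =>
      rw [Set.mem_union, mem_EAt, mem_EAt]
      constructor
      · rintro ⟨h1, h2⟩
        have hdone : ∀ u v, G.Adj u v → u ∈ Y' → v ∈ D →
            s(u, v) ∈ (fun d => s(d, xf d)) '' (D ∩ Nb G Y') := by
          intro u v huv hu hv
          have hvN : v ∈ D ∩ Nb G Y' := ⟨hv, fun h3 => (hY h3).2 hv, u, hu, huv⟩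
          refine ⟨v, hvN, ?_⟩
          have h3 : u = xf v := by
            rcases (hxf2 v hvN).adj.1 huv.symm with h4 | h4
            · exact absurd (h4 ▸ hu) hpY
            · exact h4
          show s(v, xf v) = s(u, v)
          rw [← h3]
          exact Sym2.eq_swap
        by_cases hu : u ∈ D
        · right
          rcases h2 with h2 | h2
          · exact absurd hu (hY h2).2
          · have := hdone v u h1.symm h2 hu
            rwa [Sym2.eq_swap] at this
        · by_cases hv : v ∈ D
          · right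
            rcases h2 with h2 | h2
            · exact hdone u v h1 h2 hv
            · exact absurd hv (hY h2).2
          · exact Or.inl ⟨⟨h1, hu, hv⟩, h2⟩
      · rintro (⟨h1, h2⟩ | ⟨d, hd, h2⟩)
        · exact ⟨h1.1, h2⟩
        · have h2' : s(d, xf d) = s(u, v) := h2
          have h3 := (hxf2 d hd).hq
          have h4 := hxf1 d hd
          rw [Sym2.eq_iff] at h2'
          rcases h2' with ⟨e1, e2⟩ | ⟨e1, e2⟩
          · rw [e2] at h3 h4; rw [e1] at h3; exact ⟨h3, Or.inr h4⟩
          · rw [e2] at h3 h4; rw [e1] at h3; exact ⟨h3.symm, Or.inl h4⟩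
  have hdis : Disjoint (EAt (delS G D) Y') ((fun d => s(d, xf d)) '' (D ∩ Nb G Y')) := by
    rw [Set.disjoint_left]
    rintro e he ⟨d, hd, h2⟩
    have h2' : s(d, xf d) = e := h2
    rw [← h2', mem_EAt] at he
    exact he.1.2.1 hd.1
  unfold fden rho
  rw [hE, Set.ncard_union_eq hdis (Set.toFinite _) (Set.toFinite _), hinj.ncard_image]
  push_cast
  ring

lemma rho_add [Finite V] (hD : DupOK G U p D) (hY : Y' ⊆ U \ D) (hpY : p ∉ Y') {E : Set V}
    (hE : E ⊆ D ∩ Nb G Y') : fden G (Y' ∪ E) = fden G Y' - (E.ncard : ℤ) := by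
  classical
  have hfin : E.Finite := Set.toFinite _
  induction E, hfin using Set.Finite.induction_on with
  | empty => simp
  | @insert a F ha hF ih =>
    have h1 := ih (fun d hd => hE (Or.inr hd))
    have haD := hE (Or.inl rfl)
    obtain ⟨x, hx, hax⟩ := dy_x hD hpY haD
    have ha2 : a ∉ Y' ∪ F := by
      rintro (h2 | h2)
      · exact (hY h2).2 haD.1
      · exact ha h2
    rw [Set.union_insert, fden_insert G ha2, h1, Set.ncard_insert_of_notMem ha (Set.toFinite _)]
    have h3 : G.neighborSet a \ (Y' ∪ F) = {p} := by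
      ext v
      rw [hax.nb]
      simp only [Set.mem_sdiff, Set.mem_insert_iff, Set.mem_singleton_iff, Set.mem_union, not_or]
      constructor
      · rintro ⟨h4 | h4, h5, -⟩
        · exact h4
        · exact absurd (h4 ▸ hx) h5
      · intro h4
        refine ⟨Or.inl h4, h4 ▸ hpY, ?_⟩
        intro h5
        exact hD.pD (h4 ▸ (hE (Or.inr h5)).1)
    rw [h3, Set.ncard_singleton]
    push_cast
    ring

end dy

theorem DupOK.dns_of [Finite V] {D : Set V} (hD : DupOK G U p D) (hp : PreD G U p)
    (he : Exc1 G U p) {Y' : Set V} {κ' : V → ZMod 2}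
    (hd : Dns (delS G D) (U \ D) Y' κ') (hpY : p ∉ Y') :
    p ∈ Nb (delS G D) Y' ∧ ∃ Y κ, DupDns G U p D Y' κ' Y κ := by
  classical
  have hY := hd.sub
  have hb := hd.bal
  have h3 := hd.three
  have hden := hd.dense
  set H := delS G D with hH
  have hYU : Y' ⊆ U := fun v hv => (hY hv).1
  have hns := nb_split hD hY
  have hrs := rho_split hD hY hpY
  rw [← hH] at hns hrs
  set E := D ∩ Nb G Y' with hE
  have hYne : Y'.Nonempty := by
    rw [Set.nonempty_iff_ne_empty]
    intro h4
    rw [h4, Nb_empty, Set.ncard_empty] at h3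
    omega
  by_cases hE0 : E = ∅
  · rw [hE0, Set.union_empty] at hns
    rw [hE0, Set.ncard_empty] at hrs
    have hfd : fden G Y' = fden H Y' := by rw [hrs]; simp
    have hbG : PB G κ' Y' := by
      intro u v hu huv
      by_cases hv : v ∈ D
      · have h4 : v ∈ E := ⟨hv, fun h5 => (hY h5).2 hv, u, hu, huv⟩
        rw [hE0] at h4
        exact absurd h4 (Set.notMem_empty v)
      · exact hb u v hu ⟨huv, (hY hu).2, hv⟩
    have hpN : p ∈ Nb H Y' := by
      by_contra hpN
      have h4 := he.off Y' hYU κ' hbG hpY (by rw [hns]; exact hpN) (by rw [hns]; omega)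
        (by rw [hns]; omega)
      rw [hns, hfd] at h4
      omega
    exact ⟨hpN, Y', κ', ⟨⟨hYU, hbG, by rw [hns]; exact h3, by rw [hns, hfd]; exact hden⟩,
      subset_rfl, fun d h4 h5 => absurd h4 h5, hns, hfd, by rw [hns]⟩⟩
  obtain ⟨d0, hd0⟩ : E.Nonempty := Set.nonempty_iff_ne_empty.2 hE0
  by_cases hA : ∀ d ∈ E, ∀ x ∈ Y', Hand G d p x → ∀ d' ∈ U, d' ∉ D → Hand G d' p x → d' ∈ Y'
  · -- all remaining handles lie in `Y'`
    have hcol : ∀ d ∈ E, ∃ x ∈ Y', Hand G d p x ∧ κ' x = κ' p ∧ p ∈ Nb H Y' := by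
      intro d hdE
      obtain ⟨x, hx, hdx⟩ := dy_x hD hpY hdE
      obtain ⟨d', x2, hd'U, hd'D, -, -, -, h4, h5⟩ := hD.twin d hdE.1
      have h6 : x2 = x := hand_unique h4 hdx
      rw [h6] at h5
      have h7 : d' ∈ Y' := hA d hdE x hx hdx d' hd'U hd'D h5
      have h8 : H.Adj d' p := ⟨h5.hp, hd'D, hD.pD⟩
      have h9 : H.Adj d' x := ⟨h5.hq, hd'D, (hY hx).2⟩
      have h10 := hb d' p h7 h8
      have h11 := hb d' x h7 h9
      exact ⟨x, hx, hdx, eq_of_ne_of_ne h11.symm h10.symm, hpY, d', h7, h8⟩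
    have hpN : p ∈ Nb H Y' := (hcol d0 hd0).choose_spec.2.2.2
    set κ : V → ZMod 2 := fun v => if v ∈ D then κ' p + 1 else κ' v with hκ
    have k1 : ∀ v, v ∈ D → κ v = κ' p + 1 := fun v hv => by rw [hκ]; simp [hv]
    have k2 : ∀ v, v ∉ D → κ v = κ' v := fun v hv => by rw [hκ]; simp [hv]
    have one : ∀ x : ZMod 2, x ≠ x + 1 := by decide
    have hNb : Nb G (Y' ∪ E) = Nb H Y' := by
      ext v
      constructor
      · rintro ⟨hv, u, hu, huv⟩
        have hvY : v ∉ Y' := fun h4 => hv (Or.inl h4)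
        rcases hu with hu | hu
        · have hvD : v ∉ D := by
            intro h4
            exact hv (Or.inr ⟨h4, hvY, u, hu, huv⟩)
          exact ⟨hvY, u, hu, huv, (hY hu).2, hvD⟩
        · obtain ⟨x, hx, hux, -, -⟩ := hcol u hu
          rcases hux.adj.1 huv with h4 | h4
          · rw [h4]; exact hpN
          · exact absurd (h4 ▸ hx) hvY
      · intro hv
        have hvD := nb1_notD hv
        obtain ⟨hv1, u, hu, huv⟩ := hv
        refine ⟨?_, u, Or.inl hu, huv.1⟩
        rintro (h4 | h4)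
        · exact hv1 h4
        · exact hvD h4.1
    have hfd : fden G (Y' ∪ E) = fden H Y' := by
      rw [rho_add hD hY hpY (subset_rfl : E ⊆ E), hrs]
      ring
    have hbt : beta κ (Nb G (Y' ∪ E)) = beta κ' (Nb H Y') := by
      rw [hNb]
      exact beta_congr (fun v hv => k2 v (nb1_notD hv))
    refine ⟨hpN, Y' ∪ E, κ, ⟨⟨?_, ?_, by rw [hNb]; exact h3, by rw [hbt, hfd]; exact hden⟩,
      Set.subset_union_left, ?_, hNb, hfd, hbt⟩⟩
    · rintro v (hv | hv)
      · exact hYU hv
      · exact hD.sub hv.1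
    · rintro u v (hu | hu) huv
      · rw [k2 u (hY hu).2]
        by_cases hv : v ∈ D
        · have h4 : v ∈ E := ⟨hv, fun h5 => (hY h5).2 hv, u, hu, huv⟩
          obtain ⟨x, hx, hvx, hxp, -⟩ := hcol v h4
          have h5 : u = x := by
            rcases hvx.adj.1 huv.symm with h6 | h6
            · exact absurd (h6 ▸ hu) hpY
            · exact h6
          rw [k1 v hv, h5, hxp]
          exact one _
        · rw [k2 v hv]
          exact hb u v hu ⟨huv, (hY hu).2, hv⟩
      · obtain ⟨x, hx, hux, hxp, -⟩ := hcol u hu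
        rw [k1 u hu.1]
        rcases hux.adj.1 huv with h4 | h4
        · rw [h4, k2 p hD.pD]; exact (one _).symm
        · rw [h4, k2 x (hY hx).2, hxp]; exact (one _).symm
    · intro d h4 h5
      rcases h4 with h4 | h4
      · exact absurd h4 h5
      · exact ⟨h4.1, dy_x hD hpY h4⟩
  · -- a remaining handle is a neighbour of `Y'`
    exfalso
    push Not at hA
    obtain ⟨d, hdE, x, hx, hdx, d', hd'U, hd'D, hd'x, hd'Y⟩ := hA
    have a1 : H.Adj x d' := ⟨hd'x.hq.symm, (hY hx).2, hd'D⟩
    have hd'N : d' ∈ Nb H Y' := ⟨hd'Y, x, hx, a1⟩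
    have a2 : H.Adj d' p := ⟨hd'x.hp, hd'D, hD.pD⟩
    have hd'p : d' ≠ p := hd'x.hp.ne
    by_cases hpN : p ∈ Nb H Y'
    · -- `Y' + d'` has two neighbours
      have hZ : insert d' Y' ⊆ U \ D := by
        rintro v (hv | hv)
        · rw [hv]; exact ⟨hd'U, hd'D⟩
        · exact hY hv
      have hN : Nb H (insert d' Y') ⊆ Nb H Y' \ {d'} := by
        rintro v ⟨hv, u, hu, huv⟩
        have hvd : v ≠ d' := fun h4 => hv (Or.inl h4)
        have hvY : v ∉ Y' := fun h4 => hv (Or.inr h4)
        rcases hu with hu | hu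
        · rw [hu] at huv
          rcases hd'x.adj.1 huv.1 with h4 | h4
          · rw [h4]; exact ⟨hpN, fun h5 => hd'p h5.symm⟩
          · exact absurd (h4 ▸ hx) hvY
        · exact ⟨⟨hvY, u, hu, huv⟩, hvd⟩
      refine DupOK.noZ hD (κ := κ') hZ ?_ ?_ ?_ ?_
      · rw [Set.ncard_insert_of_notMem hd'Y (Set.toFinite _)]
        have := hYne.ncard_pos
        omega
      · have h4 := Set.ncard_le_ncard hN (Set.toFinite _)
        rw [Set.ncard_sdiff_singleton_of_mem hd'N, h3] at h4
        omega
      · refine ⟨?_, d', Or.inl rfl, a2⟩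
        rintro (h4 | h4)
        · exact hd'p h4.symm
        · exact hpY h4
      · rintro u v (hu | hu) hvp huv
        · rw [hu] at huv ⊢
          rcases hd'x.adj.1 huv.1 with h4 | h4
          · exact absurd h4 hvp
          · rw [h4]; exact (hb x d' hx a1).symm
        · exact hb u v hu huv
    · by_cases hE1 : ∀ e ∈ E, e = d
      · -- only one deleted handle: P2 in `G`
        have hEd : E = {d} := by
          ext e
          exact ⟨fun h4 => hE1 e h4, fun h4 => by rw [Set.mem_singleton_iff.1 h4]; exact hdE⟩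
        have hdN : d ∉ Nb H Y' := fun h4 => nb1_notD h4 hdE.1
        have hNe : Nb G Y' = insert d (Nb H Y') := by
          rw [hns, hEd, Set.union_singleton]
        set κ : V → ZMod 2 := fun v => if v = d then κ' d' else κ' v with hκ
        have k1 : κ d = κ' d' := by rw [hκ]; simp
        have k2 : ∀ v, v ≠ d → κ v = κ' v := fun v hv => by rw [hκ]; simp [hv]
        have hYd : ∀ u ∈ Y', u ≠ d := fun u hu h4 => (hY hu).2 (h4 ▸ hdE.1)
        have hbG : PB G κ Y' := by
          intro u v hu huv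
          rw [k2 u (hYd u hu)]
          by_cases hv : v = d
          · rw [hv] at huv ⊢
            rw [k1]
            have h5 : u = x := by
              rcases hdx.adj.1 huv.symm with h6 | h6
              · exact absurd (h6 ▸ hu) hpY
              · exact h6
            rw [h5]
            exact hb x d' hx a1
          · rw [k2 v hv]
            have hvD : v ∉ D := by
              intro h4
              exact hv (hE1 v ⟨h4, fun h5 => (hY h5).2 h4, u, hu, huv⟩)
            exact hb u v hu ⟨huv, (hY hu).2, hvD⟩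
        have hc : (Nb G Y').ncard = 4 := by
          rw [hNe, Set.ncard_insert_of_notMem hdN (Set.toFinite _), h3]
        have h4 := he.off Y' hYU κ hbG hpY (by
          rw [hNe]
          rintro (h5 | h5)
          · exact hD.pD (h5 ▸ hdE.1)
          · exact hpN h5) (by omega) (by omega)
        rw [hNe] at h4
        have h5 := beta_insert_le (κ := κ) (N := Nb H Y') (x := d)
        have h6 : beta κ (Nb H Y') = beta κ' (Nb H Y') :=
          beta_congr (fun v hv => k2 v (fun h7 => hdN (h7 ▸ hv)))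
        rw [hEd, Set.ncard_singleton] at hrs
        push_cast at hrs
        omega
      · push Not at hE1
        obtain ⟨e, heE, hed⟩ := hE1
        obtain ⟨y, hy, hey⟩ := dy_x hD hpY heE
        obtain ⟨e', y2, he'U, he'D, -, -, -, h4, h5⟩ := hD.twin e heE.1
        have h6 : y2 = y := hand_unique h4 hey
        rw [h6] at h5
        by_cases hxy : y = x
        · rw [hxy] at hey
          exact PreD.no_three hp hdx hey hd'x hed.symm (fun h7 => hd'D (h7 ▸ hdE.1))
            (fun h7 => hd'D (h7 ▸ heE.1))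
        · have hne : e' ≠ d' := by
            intro h7
            rw [h7] at h5
            exact hxy (hand_unique h5 hd'x)
          have b1 : H.Adj y e' := ⟨h5.hq.symm, (hY hy).2, he'D⟩
          have b2 : H.Adj e' p := ⟨h5.hp, he'D, hD.pD⟩
          have he'Y : e' ∉ Y' := fun h7 => hpN ⟨hpY, e', h7, b2⟩
          have he'N : e' ∈ Nb H Y' := ⟨he'Y, y, hy, b1⟩
          have he'p : e' ≠ p := h5.hp.ne
          have hZ : insert e' (insert d' Y') ⊆ U \ D := by
            rintro v (hv | hv | hv)
            · rw [hv]; exact ⟨he'U, he'D⟩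
            · rw [hv]; exact ⟨hd'U, hd'D⟩
            · exact hY hv
          have hN : Nb H (insert e' (insert d' Y')) ⊆ insert p ((Nb H Y' \ {d'}) \ {e'}) := by
            rintro v ⟨hv, u, hu, huv⟩
            have hve : v ≠ e' := fun h7 => hv (Or.inl h7)
            have hvd : v ≠ d' := fun h7 => hv (Or.inr (Or.inl h7))
            have hvY : v ∉ Y' := fun h7 => hv (Or.inr (Or.inr h7))
            rcases hu with hu | hu | hu
            · rw [hu] at huv
              rcases h5.adj.1 huv.1 with h7 | h7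
              · exact Or.inl h7
              · exact absurd (h7 ▸ hy) hvY
            · rw [hu] at huv
              rcases hd'x.adj.1 huv.1 with h7 | h7
              · exact Or.inl h7
              · exact absurd (h7 ▸ hx) hvY
            · exact Or.inr ⟨⟨⟨hvY, u, hu, huv⟩, hvd⟩, hve⟩
          refine DupOK.noZ hD (κ := κ') hZ ?_ ?_ ?_ ?_
          · rw [Set.ncard_insert_of_notMem (by
              rintro (h7 | h7)
              · exact hne h7
              · exact he'Y h7) (Set.toFinite _),
              Set.ncard_insert_of_notMem hd'Y (Set.toFinite _)]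
            omega
          · have h7 := Set.ncard_le_ncard hN (Set.toFinite _)
            have h8 := Set.ncard_insert_le p ((Nb H Y' \ {d'}) \ {e'})
            have h9 : e' ∈ Nb H Y' \ {d'} := ⟨he'N, hne⟩
            have h10 : ((Nb H Y' \ {d'}) \ {e'}).ncard = 1 := by
              rw [Set.ncard_sdiff_singleton_of_mem h9, Set.ncard_sdiff_singleton_of_mem hd'N, h3]
            show (Nb H (insert e' (insert d' Y'))).ncard ≤ 2
            omega
          · refine ⟨?_, d', Or.inr (Or.inl rfl), a2⟩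
            rintro (h7 | h7 | h7)
            · exact he'p h7.symm
            · exact hd'p h7.symm
            · exact hpY h7
          · rintro u v (hu | hu | hu) hvp huv
            · rw [hu] at huv ⊢
              rcases h5.adj.1 huv.1 with h7 | h7
              · exact absurd h7 hvp
              · rw [h7]; exact (hb y e' hy b1).symm
            · rw [hu] at huv ⊢
              rcases hd'x.adj.1 huv.1 with h7 | h7
              · exact absurd h7 hvp
              · rw [h7]; exact (hb x d' hx a1).symm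
            · exact hb u v hu huv

end Pool.Agent.Helper95.HD
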